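import Pool.Agent.W888.GX.Fin

/-!
MP_0e79d0_lc (the randomised Strong Exponential Time Hypothesis): the hypothesis holds, in a
robust form, for branch-and-cut over sum-of-squares relaxations of linear degree.

An algorithm for `k`-SAT has to certify the unsatisfiability of unsatisfiable formulas. The theorem
gives, for every `δ > 0`, `k`-CNF formulas `F` with `n` variables and `2 ^ (k - 1) M n` clauses such
that every assignment falsifies at least `(1 / 2 - δ) M n` of them, while every branch-and-cut
certificate that more than `δ M n` clauses are falsified has at least `2 ^ ((1 - C log k / k) n)`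
leaves. The certificates may branch on arbitrary integer disjunctions `c x ≤ b` or `c x ≥ b + 1` and
on arbitrary real disjunctions `c x < b` or `c x ≥ b`, and may use at every leaf the whole
sum-of-squares relaxation of the degree `2 γ n`. The numbers `M` and `C` do not depend on `k`, so
the exponent tends to `n` for `k → ∞`: for all `a < b` there is `k` for which no such certificate
has at most `2 ^ (a n / b)` leaves.
-/

set_option autoImplicit false

namespace Pool.Agent.Results.MP_0e79d0_lc.BranchAndCut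

open Pool.Agent.W888.GX
open Pool.Agent.W888.UG (lab Tree SplitProof)

/-- For every `δ > 0` there are `M ≥ 1` and `C` such that for all `k ≥ C` there is `γ > 0` such that
for all large `n` there is a `k`-CNF formula `F` with `n` variables and `2 ^ (k - 1) M n` clauses
with the following properties.
1. Every assignment falsifies at least `(1 / 2 - δ) M n` clauses.
2. Let `D ≤ γ n`. If the points of all assignments are covered by convex sets each of which contains
no point of the sum-of-squares relaxation of degree `2 D` for the condition that at most `δ M n` clauses are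
falsified, then there are at least `2 ^ ((1 - C log k / k) n)` sets. Every branch-and-cut tree
over this relaxation which proves that all assignments falsify more than `δ M n` clauses has at
least `2 ^ ((1 - C log k / k) n)` leaves, and every such proof with `L` split cuts satisfies
`2 L + 1 ≥ 2 ^ ((1 - C log k / k) n)`.
3. If `δ < 1 / 4` and `k ≤ D` then some branch-and-cut tree with `2 ^ n` leaves is such a proof.

In particular for all `a < b` there is `K` such that for all `k ≥ K` these trees need more than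
`2 ^ (a n / b)` leaves for all large `n`. -/
theorem result (δ : ℝ) (hδ : 0 < δ) :
    (∃ M C : ℕ, 1 ≤ M ∧ ∀ k : ℕ, C ≤ k → ∃ γ : ℝ, 0 < γ ∧ ∃ n0 : ℕ, ∀ n : ℕ, n0 ≤ n →
      ∃ (I : Type) (_ : Fintype I) (F : I → Clause k n),
        Fintype.card I = 2 ^ (k - 1) * (M * n) ∧
        (∀ x, (1 / 2 - δ) * (M * n) ≤ (falsified F x : ℝ)) ∧
        (∀ D : ℕ, (D : ℝ) ≤ γ * n →
          (∀ Q : List (Set (Fin n → ZMod 2 → ℝ)), (∀ S ∈ Q, Convex ℝ S) →
            (∀ S ∈ Q, ∀ μ ∈ S, μ ∉ Relax D F (δ * (M * n))) →
            (∀ x : Fin n → ZMod 2, ∃ S ∈ Q, lab x ∈ S) →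
            (2 : ℝ) ^ ((1 - C * Real.log k / k) * n) ≤ Q.length) ∧
          (∀ T : Tree (Fin n) (ZMod 2), T.Proves (Relax D F (δ * (M * n))) Set.univ →
            (2 : ℝ) ^ ((1 - C * Real.log k / k) * n) ≤ T.leaves) ∧
          (∀ l, SplitProof (Relax D F (δ * (M * n))) l Set.univ →
            (2 : ℝ) ^ ((1 - C * Real.log k / k) * n) ≤ 2 * l.length + 1)) ∧
        (δ < 1 / 4 → ∀ D : ℕ, k ≤ D → ∃ T : Tree (Fin n) (ZMod 2), T.leaves = 2 ^ n ∧
          T.Proves (Relax D F (δ * (M * n))) Set.univ)) ∧
    (∃ M : ℕ, 1 ≤ M ∧ ∀ a b : ℕ, a < b → ∃ K : ℕ, ∀ k : ℕ, K ≤ k →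
      ∃ γ : ℝ, 0 < γ ∧ ∃ n0 : ℕ, ∀ n : ℕ, n0 ≤ n →
      ∃ (I : Type) (_ : Fintype I) (F : I → Clause k n),
        (∀ x, (1 / 2 - δ) * (M * n) ≤ (falsified F x : ℝ)) ∧
        ∀ D : ℕ, (D : ℝ) ≤ γ * n → ∀ T : Tree (Fin n) (ZMod 2),
          T.Proves (Relax D F (δ * (M * n))) Set.univ →
            (2 : ℝ) ^ ((a : ℝ) * n / b) < T.leaves) := by
  have h := main_all δ hδ
  refine ⟨h, ?_⟩
  obtain ⟨M, C, hM, h⟩ := h
  refine ⟨M, hM, fun a b hab => ?_⟩
  have hb0 : (0 : ℝ) < b := by exact_mod_cast (Nat.zero_le a).trans_lt hab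
  have hlim : Filter.Tendsto (fun k : ℕ => (C : ℝ) * Real.log k / k) Filter.atTop (nhds 0) := by
    have h1 : Filter.Tendsto (fun x : ℝ => Real.log x / x) Filter.atTop (nhds 0) := by
      simpa using Real.isLittleO_log_id_atTop.tendsto_div_nhds_zero
    have h2 := (h1.comp tendsto_natCast_atTop_atTop).const_mul (C : ℝ)
    rw [mul_zero] at h2
    refine h2.congr fun k => ?_
    simp only [Function.comp_apply]
    ring
  have hε : (0 : ℝ) < (1 - (a : ℝ) / b) := by
    rw [sub_pos, div_lt_one hb0]
    exact_mod_cast hab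
  obtain ⟨K, hK⟩ := Filter.eventually_atTop.1 (hlim.eventually (gt_mem_nhds hε))
  refine ⟨max C K, fun k hk => ?_⟩
  have hkK := hK k ((le_max_right _ _).trans hk)
  obtain ⟨γ, hγ, n0, h⟩ := h k ((le_max_left _ _).trans hk)
  refine ⟨γ, hγ, max n0 1, fun n hn => ?_⟩
  obtain ⟨I, iI, F, -, h2, h3, -⟩ := h n ((le_max_left _ _).trans hn)
  have hn1 : 1 ≤ n := (le_max_right _ _).trans hn
  have hn0 : (0 : ℝ) < n := by exact_mod_cast hn1
  refine ⟨I, iI, F, h2, fun D hD T hT => lt_of_lt_of_le ?_ ((h3 D hD).2.1 T hT)⟩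
  refine Real.rpow_lt_rpow_of_exponent_lt (by norm_num) ?_
  rw [mul_div_right_comm]
  exact mul_lt_mul_of_pos_right (by linarith) hn0

end Pool.Agent.Results.MP_0e79d0_lc.BranchAndCut
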