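import Pool.Agent.L5helper42.Seth.Params

/-!
# The strong exponential time hypothesis for circuits which treat a variable and its negation alike

We consider circuits of any depth whose gates are arbitrary symmetric functions of unboundedly many
wires, with one input for each clause with at most `k` literals over `n` variables. If a probability
distribution over such circuits, which are invariant under exchanging a variable in `D` with its
negation, solves `k`-SAT with bounded error (or only distinguishes satisfiable formulas from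
formulas for which no assignment satisfies more than a fraction `1 - (1 - δ) / 2 ^ k` of the
clauses), then some of the circuits have more than `2 ^ ((1 - ε) |D|)` gates. On the other hand
exhaustive search is a circuit with `2 ^ n + 1` gates which is invariant under all these exchanges.

Idea of the proof: for a random system `T x = b` of `k`-sparse equations, the flips of the
variables which fix a gate form a subspace `W` of codimension `d` such that there are at least
`2 ^ d` gates with the same `W`. So, if there are at most `2 ^ ((1 - ε) n)` gates, no combination of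
`R + 1` up to `2 R` equations vanishes on one of these subspaces `W`. Then a gate only depends on
the sums of at most `R` right hand sides which vanish on its subspace `W`.
-/

set_option autoImplicit false

open Finset

namespace Pool.Agent.Results.MP_0e79d0_lc.FlipInvariantCircuits

open Pool.Agent.L5helper42.Seth
open Pool.Agent.L5helper42.Owf (Net)

/-- The probability that the random circuit answers differently on the formulas `φ` and `ψ`. -/
noncomputable def probDiff {n k : ℕ} {Ω : Type} [Fintype Ω] (p : Ω → ℝ) {s : Ω → ℕ}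
    (C : ∀ ω, Net (Clause n k) Unit (s ω)) (φ ψ : Clause n k → Bool) : ℝ :=
  ∑ ω, p ω * if (C ω).val φ ((C ω).out ()) = (C ω).val ψ ((C ω).out ()) then 0 else 1

/-- **Main theorem.** (1) For all `0 < ε < 1` and `δ > 0` there are `k` and `q₀` such that for every
`n`, every set `D` of at least `q₀` of the `n` variables and every probability distribution on
circuits with at most `2 ^ ((1 - ε) |D|)` arbitrary symmetric gates which are invariant under
exchanging variables in `D` with their negations, there are a satisfiable `k`-CNF formula `φ` and an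
unsatisfiable `k`-CNF formula `ψ`, of whose clauses no assignment satisfies more than the fraction
`1 - (1 - δ) / 2 ^ k`, on which the random circuit answers differently with probability at most
`2 ^ (- ε |D| / 2)`. (2) For all `n` and `k` there is a circuit with `2 ^ n + 1` gates which is
invariant under exchanging any variables with their negations and decides satisfiability. -/
theorem result :
    (∀ ε δ : ℝ, 0 < ε → ε < 1 → 0 < δ → ∃ k q₀ : ℕ, 3 ≤ k ∧
      ∀ (n : ℕ) (D : Finset (Fin n)), q₀ ≤ D.card →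
      ∀ (Ω : Type) [Fintype Ω] (p : Ω → ℝ), (∀ ω, 0 ≤ p ω) → ∑ ω, p ω = 1 →
      ∀ (s : Ω → ℕ) (C : ∀ ω, Net (Clause n k) Unit (s ω)),
        (∀ ω, (s ω : ℝ) ≤ (2 : ℝ) ^ ((1 - ε) * (D.card : ℝ))) →
        (∀ ω, FlipInvariant (C ω) D) →
        ∃ φ ψ : Clause n k → Bool, Satisfiable φ ∧ ¬ Satisfiable ψ ∧
          (∀ x, (numSat ψ x : ℝ) ≤ (1 - (1 - δ) / 2 ^ k) * numClauses ψ) ∧
          probDiff p C φ ψ ≤ (2 : ℝ) ^ (-(ε / 2 * (D.card : ℝ)))) ∧
    (∀ n k : ℕ, ∃ C : Net (Clause n k) Unit (2 ^ n + 1),
      (∀ D : Finset (Fin n), FlipInvariant C D) ∧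
      ∀ φ : Clause n k → Bool, C.val φ (C.out ()) = true ↔ Satisfiable φ) := by
  classical
  refine ⟨?_, fun n k => ⟨brute n k, fun D => brute_inv D, brute_sat⟩⟩
  intro ε δ hε hε1 hδ
  set δ' : ℝ := min δ (1 / 2) / 2 with hδ'
  have hδ'0 : 0 < δ' := by
    have : 0 < min δ (1 / 2) := lt_min hδ (by norm_num)
    rw [hδ']; positivity
  have hδ'1 : δ' ≤ 1 / 4 := by
    have : min δ (1 / 2) ≤ 1 / 2 := min_le_right _ _
    rw [hδ']; linarith
  have hδ'2 : 2 * δ' ≤ δ := by
    have : min δ (1 / 2) ≤ δ := min_le_left _ _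
    rw [hδ']; linarith
  obtain ⟨a, ρ, η, Δ, k, q₀, hη0, hη1, hη2, hgood⟩ := exists_params ε δ' hε hε1 hδ'0
  have hk3 : 3 ≤ k := (hgood q₀ le_rfl).k1
  refine ⟨k, q₀, hk3, fun n D hD Ω _ p hp hp1 s C hs hC => ?_⟩
  set q : ℕ := D.card with hq
  have G := hgood q hD
  set R : ℕ := ⌊ρ * q⌋₊ with hR
  have hq0 : (0 : ℝ) < q := by exact_mod_cast G.q1
  set m : ℕ := Δ * q with hm
  let e : Fin q ↪ Fin n := D.equivFin.symm.toEmbedding.trans (Function.Embedding.subtype _)
  have he : ∀ i, e i ∈ D := fun i => (D.equivFin.symm i).2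
  have hInv : ∀ ω, (C ω).Inv (th e k) := fun ω => inv_th (hC ω) he
  set N : ℝ := (Fintype.card (Fin m → Fin k → Fin q) : ℝ) with hN
  have hNval : N = ((q : ℝ) ^ k) ^ m := by
    rw [hN, Fintype.card_fun, Fintype.card_fun, Fintype.card_fin, Fintype.card_fin,
      Fintype.card_fin]
    push_cast; ring
  have hN0 : 0 < N := by rw [hNval]; positivity
  set η' : ℝ := (2 : ℝ) ^ (-(ε / 2 * (q : ℝ))) with hη'
  have hη'0 : 0 < η' := by positivity
  -- the exponential estimates
  have hexp1 : Real.exp (a * (2 * R : ℕ)) * (1 + Real.exp (-a)) ^ m ≤ Real.exp (2 * (η * q)) := by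
    have h1 : (1 + Real.exp (-a)) ^ m ≤ Real.exp (η * q) := by
      have h2 : 1 + Real.exp (-a) ≤ Real.exp (Real.exp (-a)) := by
        have := Real.add_one_le_exp (Real.exp (-a)); linarith
      refine (pow_le_pow_left₀ (by positivity) h2 m).trans ?_
      rw [← Real.exp_nat_mul]
      exact Real.exp_le_exp.2 G.w2
    have h3 : Real.exp (a * (2 * R : ℕ)) ≤ Real.exp (η * q) := Real.exp_le_exp.2 G.w1
    calc _ ≤ Real.exp (η * q) * Real.exp (η * q) := by gcongr
      _ = _ := by rw [← Real.exp_add]; congr 1; ring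
  have hexp2 : 2 * (1 + Real.exp (-(2 * (k * R : ℕ) / q))) ^ q ≤ 2 * Real.exp (η * q) := by
    refine mul_le_mul_of_nonneg_left ?_ (by norm_num)
    have h2 := Real.add_one_le_exp (Real.exp (-(2 * ((k * R : ℕ) : ℝ) / q)))
    refine (pow_le_pow_left₀ (by positivity) (by linarith : 1 + Real.exp (-(2 * (k * R : ℕ) / q)) ≤
      Real.exp (Real.exp (-(2 * ((k * R : ℕ) : ℝ) / q)))) q).trans ?_
    rw [← Real.exp_nat_mul]
    exact Real.exp_le_exp.2 G.w3
  -- the bad systems
  have hbad : ∀ ω, ((BadT e (C ω) m R).card : ℝ) ≤ η' / 2 * N := by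
    intro ω
    refine (card_badT_le (m := m) (R := R) G.q1 (hInv ω) G.a0).trans ?_
    refine mul_le_mul_of_nonneg_right ?_ hN0.le
    have h1 : ((s ω : ℝ) + ((q : ℝ) + 1) ^ k * 2 ^ k) / 2 ^ q ≤ 2 * (2 : ℝ) ^ (-(ε * q)) := by
      rw [div_le_iff₀ (by positivity)]
      have h2 : 2 * (2 : ℝ) ^ (-(ε * q)) * 2 ^ q = 2 * (2 : ℝ) ^ ((1 - ε) * q) := by
        rw [mul_assoc, ← Real.rpow_natCast, ← Real.rpow_add (by norm_num)]
        congr 2; ring
      rw [h2]
      have := hs ω
      have := G.poly
      linarith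
    have h2 : (2 : ℝ) ^ (-(ε * q)) * Real.exp (3 * (η * q)) * 8 ≤ η' := by
      have h3 : Real.exp (3 * (η * q)) ≤ (2 : ℝ) ^ (ε / 4 * q) := by
        rw [Real.rpow_def_of_pos (by norm_num)]
        apply Real.exp_le_exp.2
        have h4 := Real.log_two_gt_d9
        have h5 : 3 * (η * q) ≤ ε / 8 * q := by nlinarith
        have h6 : 0 < ε * q := by positivity
        nlinarith
      have h4 : (8 : ℝ) ≤ (2 : ℝ) ^ (ε / 4 * q) := by
        have : (8 : ℝ) = (2 : ℝ) ^ (3 : ℝ) := by norm_num
        rw [this]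
        apply Real.rpow_le_rpow_of_exponent_le (by norm_num)
        have := G.big
        linarith
      calc (2 : ℝ) ^ (-(ε * q)) * Real.exp (3 * (η * q)) * 8
          ≤ (2 : ℝ) ^ (-(ε * q)) * (2 : ℝ) ^ (ε / 4 * q) * (2 : ℝ) ^ (ε / 4 * q) := by gcongr
        _ = η' := by
          rw [← Real.rpow_add (by norm_num), ← Real.rpow_add (by norm_num), hη']
          congr 1; ring
    calc _ ≤ (2 * (2 : ℝ) ^ (-(ε * q))) * Real.exp (2 * (η * q)) * (2 * Real.exp (η * q)) := by
          gcongr
      _ = ((2 : ℝ) ^ (-(ε * q)) * Real.exp (3 * (η * q)) * 8) / 2 := by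
          have : Real.exp (3 * (η * q)) = Real.exp (2 * (η * q)) * Real.exp (η * q) := by
            rw [← Real.exp_add]; congr 1; ring
          rw [this]; ring
      _ ≤ η' / 2 := by linarith
  -- most systems are distinct
  have hdist : N / 2 ≤ ((univ.filter fun T : Fin m → Fin k → Fin q => Distinct T).card : ℝ) := by
    have h1 := card_not_distinct m k q
    have h2 := card_filter_add_card_filter_not (s := (univ : Finset (Fin m → Fin k → Fin q)))
      (fun T => Distinct T)
    rw [card_univ] at h2
    have hm1 : 1 ≤ m := Nat.mul_pos G.D1 G.q1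
    have h3 : 2 * (m ^ 2 * k ^ k * (q ^ k) ^ (m - 1)) ≤ (q ^ k) ^ m := by
      calc 2 * (m ^ 2 * k ^ k * (q ^ k) ^ (m - 1)) = (2 * (m ^ 2 * k ^ k)) * (q ^ k) ^ (m - 1) := by
            ring
        _ ≤ q ^ k * (q ^ k) ^ (m - 1) := Nat.mul_le_mul_right _ G.dist
        _ = (q ^ k) ^ m := by rw [← pow_succ']; congr 1; omega
    have h4 : (((q ^ k) ^ m : ℕ) : ℝ) = N := by rw [hNval]; push_cast; rfl
    have h5 : (2 : ℝ) * ((univ.filter fun T : Fin m → Fin k → Fin q => ¬ Distinct T).card : ℝ) ≤
        N := by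
      rw [← h4]
      exact_mod_cast (Nat.mul_le_mul_left 2 h1).trans h3
    have h6 : ((univ.filter fun T : Fin m → Fin k → Fin q => Distinct T).card : ℝ) +
        ((univ.filter fun T : Fin m → Fin k → Fin q => ¬ Distinct T).card : ℝ) = N := by
      rw [hN]; exact_mod_cast h2
    linarith
  -- choice of the left hand sides
  obtain ⟨T, hT1, hT2⟩ : ∃ T : Fin m → Fin k → Fin q, Distinct T ∧
      ∑ ω, p ω * (if T ∈ BadT e (C ω) m R then 1 else 0) ≤ η' := by
    by_contra hcon
    push Not at hcon
    have h1 : ∑ T : Fin m → Fin k → Fin q, ∑ ω, p ω * (if T ∈ BadT e (C ω) m R then (1 : ℝ) else 0)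
        ≤ η' / 2 * N := by
      rw [sum_comm]
      calc _ = ∑ ω, p ω * ((BadT e (C ω) m R).card : ℝ) := by
            refine sum_congr rfl fun ω _ => ?_
            rw [← mul_sum]
            congr 1
            rw [sum_ite_mem, univ_inter, sum_const, nsmul_eq_mul, mul_one]
        _ ≤ ∑ ω, p ω * (η' / 2 * N) := sum_le_sum fun ω _ =>
            mul_le_mul_of_nonneg_left (hbad ω) (hp ω)
        _ = η' / 2 * N := by rw [← sum_mul, hp1, one_mul]
    have h2 : ∑ T ∈ univ.filter (fun T : Fin m → Fin k → Fin q => Distinct T), η' <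
        ∑ T ∈ univ.filter (fun T : Fin m → Fin k → Fin q => Distinct T),
          ∑ ω, p ω * (if T ∈ BadT e (C ω) m R then (1 : ℝ) else 0) := by
      refine sum_lt_sum_of_nonempty ?_ fun T hT => hcon T (mem_filter.1 hT).2
      rw [← card_pos]
      have : (0 : ℝ) < ((univ.filter fun T : Fin m → Fin k → Fin q => Distinct T).card : ℝ) := by
        linarith
      exact_mod_cast this
    have h3 : ∑ T ∈ univ.filter (fun T : Fin m → Fin k → Fin q => Distinct T),
          ∑ ω, p ω * (if T ∈ BadT e (C ω) m R then (1 : ℝ) else 0) ≤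
        ∑ T : Fin m → Fin k → Fin q, ∑ ω, p ω * (if T ∈ BadT e (C ω) m R then (1 : ℝ) else 0) := by
      refine sum_le_sum_of_subset_of_nonneg (subset_univ _) fun T _ _ => ?_
      refine sum_nonneg fun ω _ => mul_nonneg (hp ω) ?_
      split_ifs <;> norm_num
    rw [sum_const, nsmul_eq_mul] at h2
    have h4 := mul_le_mul_of_nonneg_right hdist hη'0.le
    nlinarith
  have hη'1 : η' < 1 := by
    rw [hη']
    apply Real.rpow_lt_one_of_one_lt_of_neg (by norm_num)
    have : 0 < ε * q := by positivity
    linarith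
  obtain ⟨ω₀, hω₀⟩ : ∃ ω, T ∉ BadT e (C ω) m R := by
    by_contra hcon
    push Not at hcon
    have : ∑ ω, p ω * (if T ∈ BadT e (C ω) m R then (1 : ℝ) else 0) = 1 := by
      refine (sum_congr rfl fun ω _ => ?_).trans hp1
      rw [if_pos (hcon ω), mul_one]
    rw [this] at hT2
    linarith
  have hgap : ∀ ω, T ∉ BadT e (C ω) m R → ∀ v, GapFor T R (Wn e (C ω) v) := by
    intro ω hω v
    by_contra h
    exact hω (mem_filter.2 ⟨mem_univ _, v, h⟩)
  have hout : ∀ ω, Wn e (C ω) (Sum.inr ((C ω).out ())) = ⊤ := fun ω => Wn_out (hC ω) he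
  have htop : GapFor T R (⊤ : Submodule (ZMod 2) (Fin q → ZMod 2)) := by
    rw [← hout ω₀]
    exact hgap ω₀ hω₀ _
  -- choice of the right hand side
  set B : Finset (Fin m → ZMod 2) := univ.filter fun b => ∀ c,
    Ann T (2 * R) (⊤ : Submodule (ZMod 2) (Fin q → ZMod 2)) c → pr c b = 0 with hB
  obtain ⟨b, hbB, hb⟩ := exists_far_in (q := q)
    (K := ((univ.filter fun c : Fin m → ZMod 2 => wt c ≤ 2 * R).card : ℝ)) B (card_orth htop) (by
      have h1 := (card_wt_le (m := m) a G.a0 (2 * R)).trans hexp1
      have h2 : (2 : ℝ) ^ q < Real.exp (q : ℝ) := by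
        have : Real.exp (q : ℝ) = Real.exp 1 ^ q := by rw [← Real.exp_nat_mul, mul_one]
        rw [this]
        refine pow_lt_pow_left₀ ?_ (by norm_num) (by have := G.q1; omega)
        have := Real.exp_one_gt_d9
        linarith
      calc _ ≤ Real.exp (2 * (η * q)) * 2 ^ q := mul_le_mul_of_nonneg_right h1 (by positivity)
        _ < Real.exp (2 * (η * q)) * Real.exp q :=
            mul_lt_mul_of_pos_left h2 (Real.exp_pos _)
        _ = Real.exp (2 * (η * q) + q) := (Real.exp_add _ _).symm
        _ ≤ Real.exp (2 * δ' ^ 2 * m) := by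
          apply Real.exp_le_exp.2
          have := G.far
          rw [← hm] at this
          nlinarith) hδ'0 (fun t => mulT T t)
  have hbB' := (mem_filter.1 hbB).2
  have hm0 : (0 : ℝ) < m := by
    have : 0 < m := Nat.mul_pos G.D1 G.q1
    exact_mod_cast this
  have hvio : ∀ y : Fin n → ZMod 2, (numSat (inst e T b) y : ℝ) + (1 / 2 - δ') * m ≤
      numClauses (inst e T b) := by
    intro y
    have h1 := violated e T hT1 b y
    have h2 := hb fun i => y (e i)
    have h3 : (numSat (inst e T b) y : ℝ) +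
        ((univ.filter fun l => mulT T (fun i => y (e i)) l ≠ b l).card : ℝ) ≤
        numClauses (inst e T b) := by exact_mod_cast h1
    linarith
  have hcl : (2 : ℝ) * numClauses (inst e T b) ≤ m * 2 ^ k := by
    exact_mod_cast numClauses_le e T (by omega) b
  refine ⟨inst e T 0, inst e T b, inst_zero_sat e T, ?_, ?_, ?_⟩
  · rintro ⟨y, hy⟩
    have h1 : numSat (inst e T b) y = numClauses (inst e T b) := by
      unfold numSat numClauses
      congr 1
      ext c
      simp only [mem_filter, mem_univ, true_and]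
      exact ⟨fun h => h.1, fun h => ⟨h, hy c h⟩⟩
    have h2 := hvio y
    rw [h1] at h2
    have : 0 < (1 / 2 - δ') * m := mul_pos (by linarith) hm0
    linarith
  · intro y
    have h1 := hvio y
    have h2 : (1 - δ) / 2 ^ k * (numClauses (inst e T b) : ℝ) ≤ (1 / 2 - δ') * m := by
      have h3 : (1 - δ) / 2 ^ k * (numClauses (inst e T b) : ℝ) ≤
          (1 - 2 * δ') / 2 ^ k * (numClauses (inst e T b) : ℝ) := by
        refine mul_le_mul_of_nonneg_right ?_ (Nat.cast_nonneg _)
        refine div_le_div_of_nonneg_right ?_ (by positivity)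
        linarith
      have h4 : (numClauses (inst e T b) : ℝ) / 2 ^ k ≤ m / 2 := by
        rw [div_le_iff₀ (by positivity)]
        linarith
      calc (1 - δ) / 2 ^ k * (numClauses (inst e T b) : ℝ)
          ≤ (1 - 2 * δ') / 2 ^ k * (numClauses (inst e T b) : ℝ) := h3
        _ = (1 - 2 * δ') * ((numClauses (inst e T b) : ℝ) / 2 ^ k) := by ring
        _ ≤ (1 - 2 * δ') * (m / 2) := mul_le_mul_of_nonneg_left h4 (by linarith)
        _ = (1 / 2 - δ') * m := by ring
    linarith
  · refine le_trans ?_ hT2
    unfold probDiff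
    refine sum_le_sum fun ω _ => mul_le_mul_of_nonneg_left ?_ (hp ω)
    by_cases hω : T ∈ BadT e (C ω) m R
    · rw [if_pos hω]
      split_ifs <;> norm_num
    · rw [if_neg hω]
      have h1 := out_eq G.R1 (hgap ω hω) 0 b (by
        intro c hc
        rw [hout ω] at hc
        rw [hbB' c hc]
        simp [pr])
      rw [if_pos h1]

end Pool.Agent.Results.MP_0e79d0_lc.FlipInvariantCircuits
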