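import Mathlib
import Pool.Agent.L5helper35.LPS.Fin

/-!
# Linear programming formulations of MAX-k-SAT need `2 ^ ((1 - ε) n)` inequalities

A linear programming formulation is one polyhedron for all formulas with `n` variables (`s` inequalities, any
number of equations and variables), which contains a point for every assignment, and an affine objective function
for every formula, which computes the number of violated clauses up to an additive error `K`. For every `ε > 0`
and `K` there is `k` such that for the `k`-CNF formulas with `O(n²)` clauses at least `2 ^ ((1 - ε) n)`
inequalities are necessary, also for formulations which are correct for a small fraction of the formulas of an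
explicit family; `2 ^ n` inequalities are enough for the exact value.

Proof. The variables are divided into `t` blocks of `B = b + 1` bits, `k = 2 B + 1`. A formula is given by
Boolean functions `g₁, …, g_t` of `b` bits; the block `i` is *inside* if it lies on the graph of `g_i`. There are
`L` violated clauses for each block outside and `2 L` violated clauses for each pair of blocks
inside, together `L ((t - 1) + (1 - s)²)` for `s` blocks inside (`violated_form`). By Farkas' lemma a formulation
gives a nonnegative factorisation of a matrix close to `(1 - s)²` with `s + 1` pieces (`farkas_cnf`). For one piece
`u(g) v(y)` with values in `[0, 1]` let `Z` be the mean over the pairs with all blocks outside and `O` the sum of the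
means over the pairs with exactly one given block inside. Then
`Z log (1 / Z) ≥ Λ (t Z - (16 / η) O)` (`tens`) with `Λ` close to `B log 2`. This follows
by induction on `t` from an entropy inequality for one block (`local_ineq`): for a function `α` of `g` and a
function `β` of the points, either a constant fraction of the mass of `β` is on light points, and then the
functions `g` with little mass of `β` on the graph are exponentially rare (`bad_card`), or most of
the mass of `β` outside the graph is on few heavy points, in both cases one of the two entropies is large.
-/

set_option autoImplicit false

namespace Pool.Agent.Results.MP_0e79d0_lc.LinearFormulations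

open Filter
open Pool.Agent.L5helper35.LPS

/-- Lower bounds `2 ^ ((1 - 31 log k / k) n)` for the number of inequalities of linear programming formulations of
MAX-`k`-SAT with additive error `κ L` for formulas with `O(L n²)` clauses, `1 ≤ L ≤ κ n`; lower bounds
`2 ^ ((1 - ε) n)` for every constant additive error; `2 ^ n` inequalities are enough for the exact value. -/
theorem result :
    (∀ k : ℕ, 2 ≤ k → ∃ (κ : ℝ) (W : ℕ), 0 < κ ∧ ∀ᶠ n : ℕ in atTop, ∀ L : ℕ, 1 ≤ L → (L : ℝ) ≤ κ * n →
      Hard n k (W * L) (κ * L) (1 - 31 * Real.log k / k)) ∧
    (∀ ε : ℝ, 0 < ε → ∀ K : ℝ, 0 ≤ K → ∃ k W : ℕ, ∀ᶠ n : ℕ in atTop, Hard n k W K (1 - ε)) ∧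
    ∀ n : ℕ, Nonempty (LPFormulation n (2 ^ n) 0 Set.univ) :=
  ⟨main, main_const, lp_upper⟩

end Pool.Agent.Results.MP_0e79d0_lc.LinearFormulations
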