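import Mathlib
import Pool.Agent.H520R2.NMDefs
import Pool.Agent.L5helper92.KS.Defs
import Pool.Agent.L5helper92.SE.Defs
import Pool.Agent.L5helper92.SE.Fin

/-!
# SETH for circuits with `(1 - δ) * log₂ m` NOT gates and clauses of width `O(log n)`

A formula in `n` variables is a sublist of a fixed list of `m = n ^ O(1)` clauses of width
`O(log n)`; there is one input bit for each of the `m` clauses. We consider circuits with AND and
OR gates of fan-in two and with arbitrary further gates, the `i`-th of them with `w i` input wires
and any number of outputs, for example NOT gates (`w i = 1`).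

Theorem. Let `0 < δ < 1` and `K` be fixed. There is a number `D` and for all large `n` there is a
list of `m` clauses, `n ≤ m ≤ n ^ D`, of width at most `D * log₂ n` such that no circuit with
`∏ (w i + 1) ≤ m ^ (1 - δ)` and with size (number of AND and OR gates plus `∑ w i`) at most
`2 ^ ((1 - δ) * n)` recognises the unsatisfiable sublists, not even with probability
`1 / 2 + 1 / n ^ K` for a certain distribution (uniform on a finite family, the same for all
circuits), and randomised circuits of this kind err with probability more than
`1 / 2 - 1 / n ^ K` on some sublist.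

The circuits may have `(1 - δ) * log₂ m` NOT gates. The exponent is tight: `m * 2 ^ n` AND and OR
gates and no other gate suffice. With `log₂ m + 1` NOT gates one could simulate all circuits with a
polynomial loss (Markov, Fischer), which would give the statement for all circuits, that is, SETH
for clauses of width `O(log n)` and for nonuniform and randomised algorithms.

Proof. Let `G` be a large constant. There is a number `a` and, for all `V`, a hypergraph with `V`
vertices and `V + 1` edges of size `a` in which `t` edges always span at least
`min (G * t) ((1 - 1 / G) * V)` vertices, up to small terms. The vertices are variables with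
`q = n ^ O(1)` values. For each edge some local assignments are allowed. The local assignments of a
random global assignment form a spread family, so the approximation method with robust sunflowers
applies (the tests on the other side are random sets, which allow no global assignment). If in the
approximation only sets of more than `e` local assignments count as errors on the satisfiable side,
where `e * G` is about `(1 - 1 / G) * V`, then monotone circuits need size `q ^ ((1 - δ) * V)`. The
`q` values of a variable are encoded by `log₂ q` Boolean variables, a forbidden local assignment is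
one clause of width `a * log₂ q`. There are `σ = O(log n)` further Boolean variables, which select
one of `2 ^ σ` copies, and along a random chain of inputs the non-monotone gates are constant on
most copies. As `n = V * log₂ q + σ`, the bound is `2 ^ ((1 - δ) * n)`.
-/

namespace Pool.Agent.Results.MP_0e79d0_lc.WidthLogN

open Filter Finset Pool.Agent.H520R2.NM Pool.Agent.L5helper92.SE

theorem result (δ : ℝ) (hδ : 0 < δ) (hδ1 : δ < 1) (K : ℕ) :
    ∃ D : ℕ, ∀ᶠ n : ℕ in atTop, ∃ (m : ℕ) (cl : Fin m → Finset (Fin n × Bool)),
      n ≤ m ∧ m ≤ n ^ D ∧ (∀ i, (cl i).card ≤ D * Nat.log 2 n) ∧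
      -- one distribution of formulas is hard for all circuits
      (∃ (Λ : Type) (_ : Fintype Λ) (_ : Nonempty Λ) (x : Λ → Fin m → Bool),
        ∀ (N : ℕ) (C : Circuit (Fin m) N) (out : Wire (Fin m) N),
          (((C.fanins.map (· + 1)).prod : ℕ) : ℝ) ≤ (m : ℝ) ^ (1 - δ) →
          ((C.size + C.fanins.sum : ℕ) : ℝ) ≤ 2 ^ ((1 - δ) * n) →
          ({l : Λ | (out.eval (x l) (C.vals (x l)) = true ↔ ¬ SatList cl (x l))}.ncard : ℝ) <
            (1 / 2 + 1 / (n : ℝ) ^ K) * Fintype.card Λ) ∧
      -- randomised circuits err with probability more than `1 / 2 - 1 / n ^ K` on some formula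
      ∀ (Ω : Type) [Fintype Ω] (p : Ω → ℝ), (∀ r, 0 ≤ p r) → ∑ r, p r = 1 →
        ∀ (N : Ω → ℕ) (C : ∀ r, Circuit (Fin m) (N r)) (out : ∀ r, Wire (Fin m) (N r)),
          (∀ r, ((((C r).fanins.map (· + 1)).prod : ℕ) : ℝ) ≤ (m : ℝ) ^ (1 - δ)) →
          (∀ r, (((C r).size + (C r).fanins.sum : ℕ) : ℝ) ≤ 2 ^ ((1 - δ) * n)) →
          ∃ x : Fin m → Bool, ∀ Q : Finset Ω,
            (∀ r ∈ Q, ((out r).eval x ((C r).vals x) = true ↔ ¬ SatList cl x)) →
              ∑ r ∈ Q, p r < 1 / 2 + 1 / (n : ℝ) ^ K :=
  main_seth_both δ hδ hδ1 K

end Pool.Agent.Results.MP_0e79d0_lc.WidthLogN
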